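import Mathlib

/-!
# The biased sequence game: Player 1 on {0,1,2}, Player 2 on {0,1}

Player 1 has a strategy avoiding all squares `xx` with `|x| ≥ 2`.  He ignores Player 2 and plays a
fixed square-free ternary word without three consecutive letters from `{0,1}`.  The word is a
coding of the golden rotation: with `α = (√5-1)/2` and `b j = ⌊j α⌋ mod 2` it is
`2 [b 0 b 1] 2 [b 2 b 3] 2 [b 4 b 5] …`, where `[b b']` is `b b'` if `b ≠ b'` and `b` if `b = b'`.
-/

set_option autoImplicit false

namespace Pool.Agent.Results.MP_fa571f_co.BiasedGame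

/-- `s` contains a square `x x` of a nonsingleton block (`|x| = r ≥ 2`). -/
def HasSquare (s : ℕ → Fin 3) : Prop :=
  ∃ k r : ℕ, 2 ≤ r ∧ ∀ t < r, s (k + t) = s (k + r + t)

/-- `s` is a play of the biased game in which Player 1 (who makes the moves number `0, 2, 4, …`)
follows the strategy `σ`, a function of the list of all symbols played so far, and Player 2
(moves `1, 3, 5, …`) plays arbitrary symbols from `{0, 1}`. -/
def IsPlay (σ : List (Fin 3) → Fin 3) (s : ℕ → Fin 3) : Prop :=
  (∀ i, s (2 * i) = σ ((List.range (2 * i)).map s)) ∧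
  (∀ i, s (2 * i + 1) = 0 ∨ s (2 * i + 1) = 1)

noncomputable section

/-- the golden rotation number -/
def α : ℝ := (Real.sqrt 5 - 1) / 2

theorem sqrt5_sq : Real.sqrt 5 * Real.sqrt 5 = 5 := Real.mul_self_sqrt (by norm_num)

theorem α_sq : α * α = 1 - α := by
  unfold α
  have h := sqrt5_sq
  nlinarith

theorem α_pos : 0 < α := by
  unfold α
  have h := sqrt5_sq
  have h0 : 0 ≤ Real.sqrt 5 := Real.sqrt_nonneg 5
  nlinarith

theorem α_lo : (0.618 : ℝ) < α := by
  have h := α_sq
  have h0 := α_pos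
  by_contra hc
  push Not at hc
  nlinarith

theorem α_hi : α < (0.619 : ℝ) := by
  have h := α_sq
  have h0 := α_pos
  by_contra hc
  push Not at hc
  nlinarith

/-- `F_{i+1} α - F_i = -(-α)^{i+1}` -/
theorem fib_alpha : ∀ i : ℕ, (Nat.fib (i + 1) : ℝ) * α - Nat.fib i = -(-α) ^ (i + 1)
  | 0 => by simp
  | 1 => by
      have h := α_sq
      have e1 : Nat.fib (1 + 1) = 1 := by decide
      have e2 : Nat.fib 1 = 1 := by decide
      rw [e1, e2]
      push_cast
      nlinarith
  | (i + 2) => by
      have h1 := fib_alpha i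
      have h2 := fib_alpha (i + 1)
      have e1 : Nat.fib (i + 2 + 1) = Nat.fib (i + 1) + Nat.fib (i + 2) := Nat.fib_add_two
      have e2 : Nat.fib (i + 2) = Nat.fib i + Nat.fib (i + 1) := Nat.fib_add_two
      have h := α_sq
      have h3 : -(-α) ^ (i + 2 + 1) = -(-α) ^ (i + 1) * (α * α) := by ring
      rw [h3, h, e1]
      push_cast
      have h4 : -(-α) ^ (i + 1 + 1) = (-(-α) ^ (i + 1)) * (-α) := by ring
      rw [h4] at h2
      have e2' : (Nat.fib (i + 2) : ℝ) = Nat.fib i + Nat.fib (i + 1) := by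
        rw [e2]; push_cast; ring
      rw [← h1] at h2
      have h5 : (-(-α) ^ (i + 1)) * (1 - α) = (-(-α) ^ (i + 1)) + (-(-α) ^ (i + 1)) * (-α) := by ring
      rw [h5, ← h1]
      rw [show i + 1 + 1 = i + 2 by ring] at h2
      linarith

/-- Every interval of length `α^n` is hit within `F_{n+2}` steps. -/
theorem hit : ∀ n : ℕ, ∀ x c : ℝ, ∃ k : ℕ, k < Nat.fib (n + 2) ∧ ∃ z : ℤ,
    c ≤ x + k * α - z ∧ x + k * α - z < c + α ^ n := by
  intro n
  induction n with
  | zero =>
      intro x c
      refine ⟨0, by simp, ⌊x - c⌋, ?_, ?_⟩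
      · have := Int.floor_le (x - c)
        push_cast; linarith
      · have := Int.lt_floor_add_one (x - c)
        push_cast; simp; linarith
  | succ n ih =>
      intro x c
      have hα := α_pos
      have hα1 := α_hi
      have hsq := α_sq
      have hpow : α ^ n = α ^ (n + 1) + α ^ (n + 2) := by
        have : α ^ (n + 1) + α ^ (n + 2) = α ^ n * (α + α * α) := by ring
        rw [this, hsq]; ring
      have hp2 : 0 < α ^ (n + 2) := pow_pos hα _
      have hp1 : 0 < α ^ (n + 1) := pow_pos hα _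
      have hp12 : α ^ (n + 2) ≤ α ^ (n + 1) := by
        have : α ^ (n + 2) = α ^ (n + 1) * α := by ring
        rw [this]; nlinarith
      have hfib : Nat.fib (n + 1 + 2) = Nat.fib (n + 1) + Nat.fib (n + 2) := Nat.fib_add_two
      have hfa := fib_alpha n
      rcases Nat.even_or_odd (n + 1) with he | ho
      · -- shift by -α^(n+1)
        rw [Even.neg_pow he] at hfa
        obtain ⟨k, hk, z, h1, h2⟩ := ih x c
        by_cases hv : x + k * α - z < c + α ^ (n + 1)
        · exact ⟨k, by omega, z, h1, hv⟩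
        · push Not at hv
          refine ⟨k + Nat.fib (n + 1), by omega, z + (Nat.fib n : ℤ), ?_, ?_⟩
          · push_cast; linarith
          · push_cast; linarith
      · rw [Odd.neg_pow ho] at hfa
        obtain ⟨k, hk, z, h1, h2⟩ := ih x (c - α ^ (n + 2))
        by_cases hv : c ≤ x + k * α - z
        · exact ⟨k, by omega, z, hv, by linarith⟩
        · push Not at hv
          refine ⟨k + Nat.fib (n + 1), by omega, z + (Nat.fib n : ℤ), ?_, ?_⟩
          · push_cast; linarith
          · push_cast; linarith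

theorem basis : ∀ n : ℕ, ∀ m z : ℤ, ∃ a b : ℤ,
    m = a * Nat.fib (n + 1) + b * Nat.fib (n + 2) ∧ z = a * Nat.fib n + b * Nat.fib (n + 1) := by
  intro n
  induction n with
  | zero => intro m z; exact ⟨m - z, z, by simp, by simp⟩
  | succ n ih =>
      intro m z
      obtain ⟨a, b, h1, h2⟩ := ih m z
      have e1 : (Nat.fib (n + 1 + 2) : ℤ) = Nat.fib (n + 1) + Nat.fib (n + 2) := by
        rw [Nat.fib_add_two]; push_cast; ring
      have e2 : (Nat.fib (n + 2) : ℤ) = Nat.fib n + Nat.fib (n + 1) := by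
        rw [Nat.fib_add_two]; push_cast; ring
      refine ⟨b - a, a, ?_, ?_⟩
      · rw [e1, h1]; ring
      · rw [show n + 1 + 1 = n + 2 by ring, h2, e2]; ring

/-- Best approximation. -/
theorem best (n : ℕ) (m z : ℤ) (h1 : 1 ≤ m) (h2 : m < Nat.fib (n + 2)) :
    α ^ (n + 1) ≤ |(m : ℝ) * α - z| := by
  obtain ⟨a, b, e1, e2⟩ := basis n m z
  have hα := α_pos
  have f1 := fib_alpha n
  have f2 := fib_alpha (n + 1)
  have key : (m : ℝ) * α - z = -(-α) ^ (n + 1) * (a - b * α) := by
    have e1' : (m : ℝ) = a * Nat.fib (n + 1) + b * Nat.fib (n + 2) := by exact_mod_cast e1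
    have e2' : (z : ℝ) = a * Nat.fib n + b * Nat.fib (n + 1) := by exact_mod_cast e2
    rw [e1', e2']
    have f3 : -(-α) ^ (n + 1 + 1) = -(-α) ^ (n + 1) * (-α) := by ring
    rw [f3] at f2
    rw [show n + 1 + 1 = n + 2 by ring] at f2
    calc _ = a * ((Nat.fib (n + 1) : ℝ) * α - Nat.fib n)
          + b * ((Nat.fib (n + 2) : ℝ) * α - Nat.fib (n + 1)) := by ring
      _ = _ := by rw [f2, f1]; ring
  rw [key, abs_mul, abs_neg, abs_pow, abs_neg, abs_of_pos hα]
  have hp : 0 < α ^ (n + 1) := pow_pos hα _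
  have hF1 : (0 : ℤ) < Nat.fib (n + 1) := by exact_mod_cast Nat.fib_pos.2 (by omega)
  have hF2 : (0 : ℤ) < Nat.fib (n + 2) := by exact_mod_cast Nat.fib_pos.2 (by omega)
  have habs : (1 : ℝ) ≤ |(a : ℝ) - b * α| := by
    rcases lt_trichotomy b 0 with hb | hb | hb
    · have ha : 0 < a := by
        by_contra hc
        push Not at hc
        have : a * Nat.fib (n + 1) ≤ 0 := by nlinarith
        have : b * Nat.fib (n + 2) < 0 := by nlinarith
        linarith
      have ha' : (1 : ℝ) ≤ a := by exact_mod_cast ha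
      have hb' : (b : ℝ) ≤ -1 := by exact_mod_cast (by omega : b ≤ -1)
      refine le_trans ?_ (le_abs_self _)
      nlinarith
    · subst hb
      have ha : a ≠ 0 := by
        intro hc
        subst hc
        simp at e1
        omega
      have : (1 : ℤ) ≤ |a| := Int.one_le_abs ha
      have h' : (1 : ℝ) ≤ |(a : ℝ)| := by exact_mod_cast this
      simpa using h'
    · have ha : a < 0 := by
        by_contra hc
        push Not at hc
        have h3 : 0 ≤ a * Nat.fib (n + 1) := by positivity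
        have h4 : (Nat.fib (n + 2) : ℤ) ≤ b * Nat.fib (n + 2) := by nlinarith
        linarith
      have ha' : (a : ℝ) ≤ -1 := by exact_mod_cast (by omega : a ≤ -1)
      have hb' : (1 : ℝ) ≤ b := by exact_mod_cast hb
      refine le_trans ?_ (neg_le_abs _)
      nlinarith
  nlinarith

/-- the Beatty-type sequence -/
def u (j : ℕ) : ℤ := ⌊(j : ℝ) * α⌋

/-- Among `2m-1` consecutive `j` some `u (j+2m) - u j` is odd (for `m ≥ 2`). -/
theorem run (m : ℕ) (hm : 2 ≤ m) (js : ℕ) :
    ∃ k, k < 2 * m - 1 ∧ ¬ ((2 : ℤ) ∣ u (js + k + 2 * m) - u (js + k)) := by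
  have hα := α_pos
  have hα2 := α_lo
  obtain ⟨i, hi⟩ : ∃ i, Nat.greatestFib m = i := ⟨_, rfl⟩
  have g1 : Nat.fib i ≤ m := hi ▸ Nat.fib_greatestFib_le m
  have g2 : m < Nat.fib (i + 1) := hi ▸ Nat.lt_fib_greatestFib_add_one m
  have hi3 : 3 ≤ i := by
    by_contra hc
    have : i + 1 ≤ 3 := by omega
    have := Nat.fib_mono this
    have h3 : Nat.fib 3 = 2 := by decide
    omega
  obtain ⟨n, rfl⟩ : ∃ n, i = n + 1 := ⟨i - 1, by omega⟩
  have g3 : Nat.fib (n + 2) ≤ 2 * m - 1 := by
    have : Nat.fib (n + 2) = Nat.fib n + Nat.fib (n + 1) := Nat.fib_add_two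
    have h4 : Nat.fib n < Nat.fib (n + 1) := Nat.fib_lt_fib_succ (by omega)
    omega
  obtain ⟨z, hz⟩ : ∃ z : ℤ, |(m : ℝ) * α - z| ≤ 1 / 2 := ⟨round ((m : ℝ) * α), abs_sub_round _⟩
  have hb := best n m z (by omega) (by exact_mod_cast g2)
  have hlen : α ^ n ≤ 2 * |(m : ℝ) * α - z| := by
    have : 0 < α ^ n := pow_pos hα _
    have e : α ^ (n + 1) = α ^ n * α := by ring
    push_cast at hb
    rw [e] at hb
    nlinarith
  obtain ⟨ε, hε⟩ : ∃ ε : ℝ, ε = 2 * ((m : ℝ) * α - z) := ⟨_, rfl⟩
  have hM : ∀ j : ℕ, u (j + 2 * m) = ⌊(j : ℝ) * α + ε⌋ + 2 * z := by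
    intro j
    unfold u
    rw [show (((j + 2 * m : ℕ) : ℝ)) * α = (j : ℝ) * α + ε + ((2 * z : ℤ) : ℝ) by
      rw [hε]; push_cast; ring]
    rw [Int.floor_add_intCast]
  rcases le_or_gt 0 ((m : ℝ) * α - z) with h0 | h0
  · rw [abs_of_nonneg h0] at hz hlen
    obtain ⟨k, hk, w, w1, w2⟩ := hit n ((js : ℝ) * α) (-ε)
    refine ⟨k, by omega, ?_⟩
    have f1 : u (js + k) = w - 1 := by
      unfold u
      rw [Int.floor_eq_iff]
      push_cast
      constructor <;> nlinarith
    have f2 : ⌊((js + k : ℕ) : ℝ) * α + ε⌋ = w := by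
      rw [Int.floor_eq_iff]
      push_cast
      constructor <;> nlinarith
    rw [hM, f2, f1]
    omega
  · rw [abs_of_neg h0] at hz hlen
    obtain ⟨k, hk, w, w1, w2⟩ := hit n ((js : ℝ) * α) 0
    refine ⟨k, by omega, ?_⟩
    have f1 : u (js + k) = w := by
      unfold u
      rw [Int.floor_eq_iff]
      push_cast
      constructor <;> nlinarith
    have f2 : ⌊((js + k : ℕ) : ℝ) * α + ε⌋ = w - 1 := by
      rw [Int.floor_eq_iff]
      push_cast
      constructor <;> nlinarith
    rw [hM, f2, f1]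
    omega

theorem u_step (j : ℕ) : u (j + 1) = u j ∨ u (j + 1) = u j + 1 := by
  have h1 := α_lo
  have h2 := α_hi
  unfold u
  have a1 := Int.floor_le ((j : ℝ) * α)
  have a2 := Int.lt_floor_add_one ((j : ℝ) * α)
  have b1 := Int.floor_le (((j + 1 : ℕ) : ℝ) * α)
  have b2 := Int.lt_floor_add_one (((j + 1 : ℕ) : ℝ) * α)
  push_cast at *
  have c1 : (⌊(j : ℝ) * α⌋ : ℝ) < ⌊((j : ℝ) + 1) * α⌋ + 1 := by linarith
  have c2 : (⌊((j : ℝ) + 1) * α⌋ : ℝ) < ⌊(j : ℝ) * α⌋ + 2 := by linarith
  have c1' : ⌊(j : ℝ) * α⌋ < ⌊((j : ℝ) + 1) * α⌋ + 1 := by exact_mod_cast c1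
  have c2' : ⌊((j : ℝ) + 1) * α⌋ < ⌊(j : ℝ) * α⌋ + 2 := by exact_mod_cast c2
  omega

theorem u_step2 (j : ℕ) : u j + 1 ≤ u (j + 2) := by
  have h1 := α_lo
  have h2 := α_hi
  unfold u
  have a1 := Int.floor_le ((j : ℝ) * α)
  have b2 := Int.lt_floor_add_one (((j + 2 : ℕ) : ℝ) * α)
  push_cast at *
  have c1 : (⌊(j : ℝ) * α⌋ : ℝ) < ⌊((j : ℝ) + 2) * α⌋ := by linarith
  have c1' : ⌊(j : ℝ) * α⌋ < ⌊((j : ℝ) + 2) * α⌋ := by exact_mod_cast c1
  omega

theorem u_step3 (j : ℕ) : u (j + 3) ≤ u j + 2 := by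
  have h1 := α_lo
  have h2 := α_hi
  unfold u
  have a2 := Int.lt_floor_add_one ((j : ℝ) * α)
  have b1 := Int.floor_le (((j + 3 : ℕ) : ℝ) * α)
  push_cast at *
  have c1 : (⌊((j : ℝ) + 3) * α⌋ : ℝ) < ⌊(j : ℝ) * α⌋ + 3 := by linarith
  have c1' : ⌊((j : ℝ) + 3) * α⌋ < ⌊(j : ℝ) * α⌋ + 3 := by exact_mod_cast c1
  omega

/-- parity bit of `u` -/
def b (j : ℕ) : Fin 3 := if u j % 2 = 0 then 0 else 1

theorem b_cases (j : ℕ) : b j = 0 ∨ b j = 1 := by
  unfold b; split <;> simp

theorem b_ne_two (j : ℕ) : b j ≠ 2 := by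
  rcases b_cases j with h | h <;> rw [h] <;> decide

theorem b_eq_iff (i j : ℕ) : b i = b j ↔ u i % 2 = u j % 2 := by
  unfold b
  split <;> split <;> simp <;> omega

/-- states of the generator of the word: (block number, phase) -/
def st : ℕ → ℕ × ℕ
  | 0 => (0, 0)
  | n + 1 =>
    if (st n).2 = 0 then ((st n).1, 1)
    else if (st n).2 = 1 ∧ b (2 * (st n).1) ≠ b (2 * (st n).1 + 1) then ((st n).1, 2)
    else ((st n).1 + 1, 0)

/-- The word played by Player 1. -/
def V (n : ℕ) : Fin 3 :=
  if (st n).2 = 0 then 2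
  else if (st n).2 = 1 then b (2 * (st n).1)
  else b (2 * (st n).1 + 1)

theorem V_two (n : ℕ) : V n = 2 ↔ (st n).2 = 0 := by
  unfold V
  split
  · simp [*]
  · split
    · simp [*, b_ne_two]
    · simp [*, b_ne_two]

/-- phase 2 at block k comes only with distinct bits -/
theorem phase2 (n : ℕ) : (st n).2 ≤ 2 ∧
    ((st n).2 = 2 → b (2 * (st n).1) ≠ b (2 * (st n).1 + 1)) := by
  cases n with
  | zero => simp [st]
  | succ n =>
      rw [st]
      split
      · simp
      · split
        · rename_i h1 h2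
          exact ⟨le_rfl, fun _ => h2.2⟩
        · simp

theorem succ_start {p k : ℕ} (h : st p = (k, 0)) : st (p + 1) = (k, 1) := by
  rw [st, h]; simp

theorem start2 {p k : ℕ} (h : st p = (k, 0)) (hb : b (2 * k) = b (2 * k + 1)) :
    st (p + 2) = (k + 1, 0) := by
  rw [st, succ_start h]; simp [hb]

theorem mid3 {p k : ℕ} (h : st p = (k, 0)) (hb : b (2 * k) ≠ b (2 * k + 1)) :
    st (p + 2) = (k, 2) := by
  rw [st, succ_start h]; simp [hb]

theorem start3 {p k : ℕ} (h : st p = (k, 0)) (hb : b (2 * k) ≠ b (2 * k + 1)) :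
    st (p + 3) = (k + 1, 0) := by
  rw [st, mid3 h hb]; simp

theorem V_start {p k : ℕ} (h : st p = (k, 0)) : V p = 2 := by
  rw [V_two, h]

theorem V_one {p k : ℕ} (h : st p = (k, 0)) : V (p + 1) = b (2 * k) := by
  unfold V; rw [succ_start h]; simp

theorem V_mid {p k : ℕ} (h : st p = (k, 0)) (hb : b (2 * k) ≠ b (2 * k + 1)) :
    V (p + 2) = b (2 * k + 1) := by
  unfold V; rw [mid3 h hb]; simp

/-- start position of block `k` -/
def pos : ℕ → ℕ
  | 0 => 0
  | k + 1 => if b (2 * k) = b (2 * k + 1) then pos k + 2 else pos k + 3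

theorem st_pos (k : ℕ) : st (pos k) = (k, 0) := by
  induction k with
  | zero => simp [pos, st]
  | succ k ih =>
      rw [pos]
      split
      · rename_i h; exact start2 ih h
      · rename_i h; exact start3 ih h

theorem pos_succ_bounds (k : ℕ) : pos k + 2 ≤ pos (k + 1) ∧ pos (k + 1) ≤ pos k + 3 := by
  rw [pos]; split <;> omega

theorem pos_strictMono : StrictMono pos := by
  apply strictMono_nat_of_lt_succ
  intro n
  have := (pos_succ_bounds n).1
  omega

/-- every state is `pos k + phase` -/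
theorem st_spec (n : ℕ) : n = pos (st n).1 + (st n).2 := by
  induction n with
  | zero => simp [st, pos]
  | succ n ih =>
      have hp := phase2 n
      rw [st]
      split
      · rename_i h; simp; omega
      · split
        · rename_i h1 h2; simp; omega
        · rename_i h1 h2
          simp only [Nat.add_zero]
          rw [pos]
          by_cases hb : b (2 * (st n).1) = b (2 * (st n).1 + 1)
          · rw [if_pos hb]
            have : (st n).2 ≠ 2 := fun hc => hp.2 hc hb
            omega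
          · rw [if_neg hb]
            have : (st n).2 ≠ 1 := fun hc => h2 ⟨hc, hb⟩
            omega

theorem start_eq {p : ℕ} (h : V p = 2) : p = pos (st p).1 := by
  rw [V_two] at h
  have := st_spec p
  omega

/-- Position of the first `2` from any place. -/
theorem first_two (i : ℕ) : V i = 2 ∨ (V i ≠ 2 ∧ V (i + 1) = 2) ∨
    (V i ≠ 2 ∧ V (i + 1) ≠ 2 ∧ V (i + 2) = 2 ∧ V i ≠ V (i + 1)) := by
  have h := st_spec i
  obtain ⟨k, hk⟩ : ∃ k, (st i).1 = k := ⟨_, rfl⟩
  have hs := st_pos k
  rw [hk] at h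
  have hp := phase2 i
  obtain ⟨c, hc⟩ : ∃ c, (st i).2 = c := ⟨_, rfl⟩
  rw [hc] at h hp
  rw [hk] at hp
  have hc2 := hp.1
  interval_cases c
  · left; rw [V_two, hc]
  · by_cases hb : b (2 * k) = b (2 * k + 1)
    · right; left
      refine ⟨?_, ?_⟩
      · intro hh; rw [V_two, hc] at hh; omega
      · rw [h]; rw [show pos k + 1 + 1 = pos k + 2 by ring]
        exact V_start (start2 hs hb)
    · right; right
      refine ⟨?_, ?_, ?_, ?_⟩
      · intro hh; rw [V_two, hc] at hh; omega
      · rw [h, show pos k + 1 + 1 = pos k + 2 by ring, V_mid hs hb]; exact b_ne_two _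
      · rw [h, show pos k + 1 + 2 = pos k + 3 by ring]; exact V_start (start3 hs hb)
      · rw [h, show pos k + 1 + 1 = pos k + 2 by ring, V_mid hs hb, V_one hs]; exact hb
  · right; left
    refine ⟨?_, ?_⟩
    · intro hh; rw [V_two, hc] at hh; omega
    · rw [h, show pos k + 2 + 1 = pos k + 3 by ring]; exact V_start (start3 hs (hp.2 rfl))

/-- the last letter of a block -/
theorem V_last (k : ℕ) : V (pos (k + 1) - 1) = b (2 * k + 1) := by
  have hs := st_pos k
  rw [pos]
  split
  · rename_i h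
    rw [show pos k + 2 - 1 = pos k + 1 by omega, V_one hs]; exact h
  · rename_i h
    rw [show pos k + 3 - 1 = pos k + 2 by omega, V_mid hs h]

/-- the last but one letter of a block, if it is not the marker -/
theorem V_last2 (k : ℕ) (hne : V (pos (k + 1) - 2) ≠ 2) :
    V (pos (k + 1) - 2) = b (2 * k) ∧ b (2 * k) ≠ b (2 * k + 1) := by
  have hs := st_pos k
  rw [pos] at hne ⊢
  split
  · rename_i h
    rw [if_pos h, show pos k + 2 - 2 = pos k by omega] at hne
    exact absurd (V_start hs) hne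
  · rename_i h
    rw [show pos k + 3 - 2 = pos k + 1 by omega, V_one hs]
    exact ⟨rfl, h⟩

theorem step_match {k k' P : ℕ} (h0 : pos k' = pos k + P)
    (h1 : V (pos k + 1) = V (pos k + 1 + P)) (h2 : V (pos k + 2) = V (pos k + 2 + P)) :
    b (2 * k) = b (2 * k') ∧ b (2 * k + 1) = b (2 * k' + 1) ∧ pos (k' + 1) = pos (k + 1) + P := by
  have hs := st_pos k
  have hs' := st_pos k'
  rw [show pos k + 1 + P = pos k' + 1 by omega, V_one hs, V_one hs'] at h1
  rw [show pos k + 2 + P = pos k' + 2 by omega] at h2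
  by_cases hb : b (2 * k) = b (2 * k + 1)
  · have h3 : V (pos k + 2) = 2 := V_start (start2 hs hb)
    by_cases hb' : b (2 * k') = b (2 * k' + 1)
    · refine ⟨h1, by rw [← hb, ← hb', h1], ?_⟩
      rw [pos, pos, if_pos hb, if_pos hb']; omega
    · rw [h3, V_mid hs' hb'] at h2
      exact absurd h2.symm (b_ne_two _)
  · rw [V_mid hs hb] at h2
    by_cases hb' : b (2 * k') = b (2 * k' + 1)
    · have h3 : V (pos k' + 2) = 2 := V_start (start2 hs' hb')
      rw [h3] at h2
      exact absurd h2 (b_ne_two _)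
    · rw [V_mid hs' hb'] at h2
      refine ⟨h1, h2, ?_⟩
      rw [pos, pos, if_neg hb, if_neg hb']; omega

theorem run_b (m : ℕ) (hm : 2 ≤ m) (js : ℕ) :
    ¬ ∀ k < 2 * m - 1, b (js + k) = b (js + k + 2 * m) := by
  intro h
  obtain ⟨k, hk, hk2⟩ := run m hm js
  have := h k hk
  rw [b_eq_iff] at this
  omega

theorem one_b (j : ℕ) (h : b j = b (j + 2)) : b j ≠ b (j + 1) ∧ b (j + 1) ≠ b (j + 3) := by
  rw [b_eq_iff] at h
  have h1 := u_step j
  have h2 := u_step (j + 1)
  have h2' := u_step (j + 2)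
  have h3 := u_step2 j
  have h4 := u_step3 j
  rw [show j + 1 + 1 = j + 2 by ring] at h2
  rw [show j + 2 + 1 = j + 3 by ring] at h2'
  constructor
  · intro hc; rw [b_eq_iff] at hc; omega
  · intro hc; rw [b_eq_iff] at hc; omega

/-- The word `V` is square-free. -/
theorem V_sqfree (i P : ℕ) (hP : 1 ≤ P) : ¬ ∀ t < P, V (i + t) = V (i + P + t) := by
  intro h
  obtain ⟨d, hd2, hdP, hVd, hlt⟩ : ∃ d, d ≤ 2 ∧ d < P ∧ V (i + d) = 2 ∧
      ∀ t < d, V (i + t) ≠ 2 := by
    rcases first_two i with h0 | ⟨h0, h1⟩ | ⟨h0, h1, h2, h3⟩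
    · exact ⟨0, by omega, by omega, h0, fun t ht => absurd ht (by omega)⟩
    · refine ⟨1, by omega, ?_, h1, ?_⟩
      · by_contra hc
        have hP1 : P = 1 := by omega
        subst hP1
        have := h 0 (by omega)
        simp only [Nat.add_zero] at this
        rw [this] at h0
        exact h0 h1
      · intro t ht
        have : t = 0 := by omega
        subst this; exact h0
    · refine ⟨2, by omega, ?_, h2, ?_⟩
      · by_contra hc
        have h00 := h 0 (by omega)
        simp only [Nat.add_zero] at h00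
        have hP1 : P = 1 ∨ P = 2 := by omega
        rcases hP1 with hP1 | hP1
        · subst hP1; exact h3 h00
        · subst hP1; rw [h00] at h0; exact h0 h2
      · intro t ht
        have : t = 0 ∨ t = 1 := by omega
        rcases this with rfl | rfl
        · exact h0
        · exact h1
  obtain ⟨k1, hk1⟩ : ∃ k1, i + d = pos k1 := ⟨_, start_eq hVd⟩
  have hVdP : V (i + P + d) = 2 := by rw [← h d hdP]; exact hVd
  obtain ⟨k2, hk2⟩ : ∃ k2, i + P + d = pos k2 := ⟨_, start_eq hVdP⟩
  have hk12 : k1 < k2 := by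
    rw [← pos_strictMono.lt_iff_lt]; omega
  obtain ⟨κ, rfl⟩ : ∃ κ, k2 = κ + 1 := ⟨k2 - 1, by omega⟩
  obtain ⟨m, hm⟩ : ∃ m, κ + 1 = k1 + m := ⟨κ + 1 - k1, by omega⟩
  have hm1 : 1 ≤ m := by omega
  have hb1 := pos_succ_bounds κ
  -- the last block starts inside the first half
  have hj1 : pos κ < i + P := by
    by_contra hc
    have hd : d = 2 := by omega
    have he : pos κ = i + P := by omega
    have hV : V (i + P) = 2 := by rw [← he]; exact V_start (st_pos κ)
    have h00 := h 0 (by omega)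
    simp only [Nat.add_zero] at h00
    have h01 := hlt 0 (by omega)
    simp only [Nat.add_zero] at h01
    rw [h00] at h01
    exact h01 hV
  have hmatch : ∀ a, a + 1 ≤ m → pos (κ + 1 + a) = pos (k1 + a) + P ∧
      ∀ a' < a, b (2 * (k1 + a')) = b (2 * (κ + 1 + a')) ∧
        b (2 * (k1 + a') + 1) = b (2 * (κ + 1 + a') + 1) := by
    intro a
    induction a with
    | zero =>
        intro _
        exact ⟨by simp only [Nat.add_zero]; omega, fun a' ha' => absurd ha' (by omega)⟩
    | succ a ih =>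
        intro ha
        obtain ⟨ih1, ih2⟩ := ih (by omega)
        have hle : pos (k1 + a + 1) ≤ pos κ := pos_strictMono.monotone (by omega)
        have hb2 := pos_succ_bounds (k1 + a)
        have hge : pos k1 ≤ pos (k1 + a) := pos_strictMono.monotone (by omega)
        have e1 := h (pos (k1 + a) + 1 - i) (by omega)
        have e2 := h (pos (k1 + a) + 2 - i) (by omega)
        rw [show i + (pos (k1 + a) + 1 - i) = pos (k1 + a) + 1 by omega,
          show i + P + (pos (k1 + a) + 1 - i) = pos (k1 + a) + 1 + P by omega] at e1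
        rw [show i + (pos (k1 + a) + 2 - i) = pos (k1 + a) + 2 by omega,
          show i + P + (pos (k1 + a) + 2 - i) = pos (k1 + a) + 2 + P by omega] at e2
        obtain ⟨s1, s2, s3⟩ := step_match ih1 e1 e2
        refine ⟨by rw [← Nat.add_assoc, s3]; rfl, ?_⟩
        intro a' ha'
        rcases Nat.lt_or_ge a' a with h' | h'
        · exact ih2 a' h'
        · have : a' = a := by omega
          subst this
          exact ⟨s1, s2⟩
  obtain ⟨hlastpos, hmid⟩ := hmatch (m - 1) (by omega)
  have hκ : k1 + (m - 1) = κ := by omega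
  obtain ⟨κ', hκ'⟩ : ∃ κ', κ + 1 + (m - 1) = κ' := ⟨_, rfl⟩
  rw [hκ, hκ'] at hlastpos
  have hmid' : ∀ j, 2 * k1 ≤ j → j < 2 * κ → b j = b (j + 2 * m) := by
    intro j h1 h2
    obtain ⟨a, ha⟩ : ∃ a, j / 2 = k1 + a := ⟨j / 2 - k1, by omega⟩
    obtain ⟨q1, q2⟩ := hmid a (by omega)
    rcases Nat.even_or_odd' j with ⟨c, hc | hc⟩
    · rw [show j + 2 * m = 2 * (κ + 1 + a) by omega, show j = 2 * (k1 + a) by omega]; exact q1
    · rw [show j + 2 * m = 2 * (κ + 1 + a) + 1 by omega, show j = 2 * (k1 + a) + 1 by omega]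
      exact q2
  have hsκ := st_pos κ
  have hsκ' := st_pos κ'
  have hgeκ : pos k1 ≤ pos κ := pos_strictMono.monotone (by omega)
  -- first letter of last block
  have hfirst : pos κ + 1 < i + P → b (2 * κ) = b (2 * κ + 2 * m) := by
    intro hlt'
    have e1 := h (pos κ + 1 - i) (by omega)
    rw [show i + (pos κ + 1 - i) = pos κ + 1 by omega,
      show i + P + (pos κ + 1 - i) = pos κ' + 1 by omega, V_one hsκ, V_one hsκ'] at e1
    rw [e1]; congr 1; omega
  have hlen : pos (κ + 1) = pos κ + 2 ∧ b (2 * κ) = b (2 * κ + 1) ∨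
      pos (κ + 1) = pos κ + 3 ∧ b (2 * κ) ≠ b (2 * κ + 1) := by
    rw [pos]; split
    · left; exact ⟨rfl, by assumption⟩
    · right; exact ⟨rfl, by assumption⟩
  -- d ≥ 1: last letter of the block before
  have hprev : 1 ≤ d → 1 ≤ k1 ∧ b (2 * k1 - 1) = b (2 * k1 - 1 + 2 * m) := by
    intro hd1
    have hk1' : 1 ≤ k1 := by
      by_contra hc
      have : k1 = 0 := by omega
      subst this
      simp only [pos] at hk1
      omega
    obtain ⟨l, rfl⟩ : ∃ l, k1 = l + 1 := ⟨k1 - 1, by omega⟩
    refine ⟨hk1', ?_⟩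
    have e1 := h (d - 1) (by omega)
    rw [show i + (d - 1) = pos (l + 1) - 1 by omega, V_last,
      show i + P + (d - 1) = pos (κ + 1) - 1 by omega, V_last] at e1
    rw [show 2 * (l + 1) - 1 = 2 * l + 1 by omega, e1]
    congr 1; omega
  rcases Nat.lt_or_ge m 2 with hm2 | hm2
  · -- m = 1
    have hm1' : m = 1 := by omega
    subst hm1'
    have hκ1 : κ = k1 := by omega
    subst hκ1
    rcases Nat.eq_zero_or_pos d with hd0 | hd0
    · -- d = 0
      have q1 := hfirst (by omega)
      have q2 := one_b _ q1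
      rcases hlen with ⟨l1, l2⟩ | ⟨l1, l2⟩
      · exact q2.1 l2
      · -- second letter also matched
        have e1 := h (pos κ + 2 - i) (by omega)
        rw [show i + (pos κ + 2 - i) = pos κ + 2 by omega,
          show i + P + (pos κ + 2 - i) = pos κ' + 2 by omega, V_mid hsκ l2] at e1
        have hb' : b (2 * κ') ≠ b (2 * κ' + 1) := by
          intro hc
          rw [V_start (start2 hsκ' hc)] at e1
          exact b_ne_two _ e1
        rw [V_mid hsκ' hb'] at e1
        apply q2.2
        rw [e1]; congr 1; omega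
    · obtain ⟨hk1', q1⟩ := hprev hd0
      rcases Nat.lt_or_ge d 2 with hd1 | hd1
      · -- d = 1
        have hdd : d = 1 := by omega
        subst hdd
        have q2 := one_b _ q1
        rw [show 2 * κ - 1 + 1 = 2 * κ by omega, show 2 * κ - 1 + 3 = 2 * κ + 2 by omega] at q2
        rcases hlen with ⟨l1, l2⟩ | ⟨l1, l2⟩
        · apply q2.1
          rw [l2, q1]
          congr 1; omega
        · exact q2.2 (hfirst (by omega))
      · -- d = 2
        have hdd : d = 2 := by omega
        subst hdd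
        obtain ⟨l, rfl⟩ : ∃ l, κ = l + 1 := ⟨κ - 1, by omega⟩
        have v0 := hlt 0 (by omega)
        have e1 := h 0 (by omega)
        simp only [Nat.add_zero] at v0 e1
        have v1 : V (pos (l + 1) - 2) ≠ 2 := by
          rw [show pos (l + 1) - 2 = i by omega]; exact v0
        have v2 : V (pos (l + 1 + 1) - 2) ≠ 2 := by
          rw [show pos (l + 1 + 1) - 2 = i + P by omega, ← e1]; exact v0
        have w1 := (V_last2 l v1).1
        have w2 := (V_last2 (l + 1) v2).1
        rw [show pos (l + 1) - 2 = i by omega] at w1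
        rw [show pos (l + 1 + 1) - 2 = i + P by omega] at w2
        have q0 : b (2 * l) = b (2 * l + 2) := by
          rw [← w1, e1, w2]
          congr 1
        apply (one_b _ q0).2
        rw [show 2 * (l + 1) - 1 = 2 * l + 1 by omega] at q1
        exact q1
  · -- m ≥ 2
    rcases Nat.eq_zero_or_pos d with hd0 | hd0
    · have q1 := hfirst (by rcases hlen with ⟨l1, _⟩ | ⟨l1, _⟩ <;> omega)
      apply run_b m hm2 (2 * k1)
      intro k hk
      rcases Nat.lt_or_ge (2 * k1 + k) (2 * κ) with hh | hh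
      · exact hmid' _ (by omega) hh
      · rw [show 2 * k1 + k = 2 * κ by omega]; exact q1
    · obtain ⟨hk1', q1⟩ := hprev hd0
      apply run_b m hm2 (2 * k1 - 1)
      intro k hk
      rcases Nat.eq_zero_or_pos k with hh | hh
      · subst hh; exact q1
      · exact hmid' _ (by omega) (by omega)

/-- Among three consecutive letters of `V` one is `2`. -/
theorem V_three (i : ℕ) : V i = 2 ∨ V (i + 1) = 2 ∨ V (i + 2) = 2 := by
  rcases first_two i with h0 | ⟨_, h1⟩ | ⟨_, _, h2, _⟩
  · exact Or.inl h0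
  · exact Or.inr (Or.inl h1)
  · exact Or.inr (Or.inr h2)

/-- **Player 1 wins the biased sequence game.**  There is a strategy `σ` for Player 1, with symbols
in `{0,1,2}`, such that no play in which Player 1 follows `σ` and Player 2 plays arbitrary symbols
of `{0,1}` contains a square of a nonsingleton block.  Moreover `σ` may be chosen so that the
symbol it prescribes depends only on the number of symbols already played. -/
theorem result : ∃ σ : List (Fin 3) → Fin 3,
    (∀ h h' : List (Fin 3), h.length = h'.length → σ h = σ h') ∧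
    ∀ s : ℕ → Fin 3, IsPlay σ s → ¬ HasSquare s := by
  refine ⟨fun h => V (h.length / 2), fun h h' hh => by simp only [hh], ?_⟩
  rintro s ⟨hs1, hs2⟩ ⟨k, r, hr, hsq⟩
  have hV : ∀ i, s (2 * i) = V i := by
    intro i
    rw [hs1 i]
    simp only [List.length_map, List.length_range]
    congr 1; omega
  rcases Nat.even_or_odd' r with ⟨p, hp | hp⟩
  · -- even period: a square in `V`
    apply V_sqfree ((k + 1) / 2) p (by omega)
    intro t ht
    rw [← hV, ← hV]
    have e := hsq (2 * ((k + 1) / 2 + t) - k) (by omega)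
    rw [show k + (2 * ((k + 1) / 2 + t) - k) = 2 * ((k + 1) / 2 + t) by omega,
      show k + r + (2 * ((k + 1) / 2 + t) - k) = 2 * ((k + 1) / 2 + p + t) by omega] at e
    exact e
  · -- odd period: three consecutive letters of `V` without `2`
    have hno : ∀ j, k ≤ 2 * j → 2 * j < k + 2 * r → V j ≠ 2 := by
      intro j h1 h2 h3
      rcases Nat.lt_or_ge (2 * j) (k + r) with h4 | h4
      · have e := hsq (2 * j - k) (by omega)
        rw [show k + (2 * j - k) = 2 * j by omega,
          show k + r + (2 * j - k) = 2 * (j + p) + 1 by omega, hV, h3] at e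
        rcases hs2 (j + p) with h5 | h5 <;> rw [h5] at e <;> exact absurd e (by decide)
      · have e := hsq (2 * j - (k + r)) (by omega)
        rw [show k + (2 * j - (k + r)) = 2 * (j - p - 1) + 1 by omega,
          show k + r + (2 * j - (k + r)) = 2 * j by omega, hV, h3] at e
        rcases hs2 (j - p - 1) with h5 | h5 <;> rw [h5] at e <;> exact absurd e (by decide)
    rcases V_three ((k + 1) / 2) with h1 | h1 | h1
    · exact hno _ (by omega) (by omega) h1
    · exact hno _ (by omega) (by omega) h1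
    · exact hno _ (by omega) (by omega) h1

end

end Pool.Agent.Results.MP_fa571f_co.BiasedGame
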